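import Pool.Agent.Run7.h757.MW.Stm5

/-! # LOW2: most of the short intervals contain many elements of `V` -/

set_option autoImplicit false

open Finset MeasureTheory Filter

namespace Pool.Agent.Run7.h803.MW

open Pool.Agent.Run7.h757.MW

noncomputable section

theorem mult_card (A : Finset ℕ) (L : ℝ) (hL : 0 ≤ L)
    (h : ∀ m ∈ A, ∀ n ∈ A, m < n → (n : ℝ) - m ≤ L) : (A.card : ℝ) ≤ 1 + L := by
  rcases A.eq_empty_or_nonempty with rfl | hne
  · simp only [card_empty, Nat.cast_zero]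
    linarith
  · have hsub : A ⊆ Icc (A.min' hne) (A.max' hne) := fun x hx =>
      mem_Icc.2 ⟨A.min'_le x hx, A.le_max' x hx⟩
    have hc := card_le_card hsub
    rw [Nat.card_Icc] at hc
    have hmm : A.min' hne ≤ A.max' hne := A.min'_le _ (A.max'_mem hne)
    have hc' : (A.card : ℝ) ≤ (A.max' hne : ℝ) + 1 - A.min' hne := by
      have : A.card + A.min' hne ≤ A.max' hne + 1 := by omega
      have h2 : ((A.card : ℝ) + A.min' hne) ≤ A.max' hne + 1 := by exact_mod_cast this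
      linarith
    rcases eq_or_lt_of_le hmm with heq | hlt
    · rw [heq] at hc'
      linarith
    · have := h _ (A.min'_mem hne) _ (A.max'_mem hne) hlt
      linarith

theorem double_count (S : Finset ℕ) (cc : ℕ → ℕ) (Ex : Finset ℕ) (h : ℕ) (B : ℝ)
    (hin : ∀ n ∈ S, ∀ e, cc n < e → e ≤ cc n + h → e ∈ Ex)
    (hm : ∀ e ∈ Ex, ((S.filter (fun n => cc n < e ∧ e ≤ cc n + h)).card : ℝ) ≤ B) :
    (h : ℝ) * S.card ≤ Ex.card * B := by
  have h1 : ∀ n ∈ S, (h : ℝ) ≤ ((Ex.filter (fun e => cc n < e ∧ e ≤ cc n + h)).card : ℝ) := by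
    intro n hn
    have hsub : Ioc (cc n) (cc n + h) ⊆ Ex.filter (fun e => cc n < e ∧ e ≤ cc n + h) := by
      intro e he
      rw [mem_Ioc] at he
      exact mem_filter.2 ⟨hin n hn e he.1 he.2, he⟩
    have := card_le_card hsub
    rw [Nat.card_Ioc, Nat.add_sub_cancel_left] at this
    exact_mod_cast this
  have h2 : ∑ n ∈ S, ((Ex.filter (fun e => cc n < e ∧ e ≤ cc n + h)).card : ℝ) =
      ∑ e ∈ Ex, ((S.filter (fun n => cc n < e ∧ e ≤ cc n + h)).card : ℝ) := by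
    simp only [card_filter, Nat.cast_sum]
    exact sum_comm
  calc (h : ℝ) * S.card = ∑ _n ∈ S, (h : ℝ) := by rw [sum_const, nsmul_eq_mul, mul_comm]
    _ ≤ ∑ n ∈ S, ((Ex.filter (fun e => cc n < e ∧ e ≤ cc n + h)).card : ℝ) := sum_le_sum h1
    _ = ∑ e ∈ Ex, ((S.filter (fun n => cc n < e ∧ e ≤ cc n + h)).card : ℝ) := h2
    _ ≤ ∑ _e ∈ Ex, B := sum_le_sum hm
    _ = Ex.card * B := by rw [sum_const, nsmul_eq_mul]

theorem ev_exp (δ : ℝ) (hδ : 0 < δ) (A : ℝ) (T : ℕ) :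
    ∀ᶠ j : ℕ in atTop, A * (j : ℝ) ^ T ≤ (2 : ℝ) ^ (δ * j) := by
  set r : ℝ := (2 : ℝ) ^ (-δ) with hr
  have hr0 : 0 < r := Real.rpow_pos_of_pos two_pos _
  have hr1 : r < 1 := Real.rpow_lt_one_of_one_lt_of_neg one_lt_two (by linarith)
  have h1 := tendsto_pow_const_mul_const_pow_of_abs_lt_one T (r := r)
    (by rw [abs_of_pos hr0]; exact hr1)
  have h2 := h1.const_mul A
  rw [mul_zero] at h2
  filter_upwards [(tendsto_order.1 h2).2 1 one_pos] with j hj
  have h3 : (2 : ℝ) ^ (δ * j) * r ^ j = 1 := by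
    rw [hr, ← Real.rpow_natCast, ← Real.rpow_mul two_pos.le, ← Real.rpow_add two_pos]
    have : δ * j + -δ * j = 0 := by ring
    rw [this, Real.rpow_zero]
  have h4 : 0 < r ^ j := pow_pos hr0 j
  nlinarith [mul_pos h4 h4]

theorem xpow (k j : ℕ) (s : ℝ) : ((2 : ℝ) ^ (j * k)) ^ s = (2 : ℝ) ^ ((s * k) * j) := by
  rw [← Real.rpow_natCast, ← Real.rpow_mul two_pos.le]
  congr 1
  push_cast
  ring

theorem t_LOW2 : S_LOW2 := by
  intro k f V c t γ γ' hk hGr hc ht hγ hShort hγγ' hkγ hγ1 lam hlam K c₃ t' hc₃ ht'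
  classical
  obtain ⟨a, C, n₀, ha, hC, hn₀, -, hsp⟩ := hGr
  obtain ⟨U, hU⟩ := exists_nat_ge (t' + 1)
  obtain ⟨T, hT⟩ := hShort U
  set C' : ℝ := 1 + 2 * C / lam with hC'
  have hC'0 : 0 < C' := by positivity
  have hkR : (1 : ℝ) ≤ k := by exact_mod_cast hk
  have hk0 : (0 : ℝ) < k := by linarith
  have hδ1 : 0 < (γ' - γ) * k := mul_pos (by linarith) hk0
  have hδ2 : 0 < (1 - γ') * k := mul_pos (by linarith) hk0
  have hδ3 : 0 < γ' * k - ((k : ℝ) - 1) := by
    have h1 : (1 - 1 / (k : ℝ)) * k < γ' * k := mul_lt_mul_of_pos_right hkγ hk0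
    have h2 : (1 - 1 / (k : ℝ)) * k = k - 1 := by field_simp
    linarith
  have hδ4 : 0 < γ' * k := mul_pos (by linarith) hk0
  have evX : Tendsto (fun j : ℕ => 2 ^ (j * k)) atTop atTop :=
    (tendsto_pow_atTop_atTop_of_one_lt (by norm_num : 1 < 2)).comp
      (tendsto_id.atTop_mul_const' (by omega : 0 < k))
  have evN : ∀ᶠ j : ℕ in atTop, n₀ ≤ 2 ^ j :=
    (tendsto_pow_atTop_atTop_of_one_lt (by norm_num : 1 < 2)).eventually_ge_atTop n₀
  have evE : ∀ᶠ j : ℕ in atTop, 2 * C' * 2 ^ (2 * U) / c₃ ≤ (j : ℝ) :=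
    tendsto_natCast_atTop_atTop.eventually_ge_atTop _
  have evF : ∀ᶠ j : ℕ in atTop, 32 * (k : ℝ) ^ t / (c₃ * c) ≤ (j : ℝ) :=
    tendsto_natCast_atTop_atTop.eventually_ge_atTop _
  refine ⟨⌈t + t'⌉₊ + 1, ?_⟩
  filter_upwards [evX.eventually hT, evN, evE, evF, eventually_ge_atTop 1,
    ev_exp _ hδ1 (16 * (k : ℝ) ^ T) T, ev_exp _ hδ2 ((k : ℝ) ^ T) T, ev_exp _ hδ3 16 0,
    ev_exp _ hδ4 16 0] with j hS hN hE hF hj1 hA hB hCC hD M S hSm hScard
  obtain ⟨Ex, hExc, hEx⟩ := hS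
  -- notation
  set X : ℝ := (2 : ℝ) ^ (j * k) with hX
  have hXn : ((2 ^ (j * k) : ℕ) : ℝ) = X := by push_cast; rfl
  rw [hXn] at hExc hEx
  have hjR : (1 : ℝ) ≤ j := by exact_mod_cast hj1
  have hX1 : 1 ≤ X := one_le_pow₀ one_le_two
  have hX0 : 0 < X := by linarith
  set N : ℝ := (2 : ℝ) ^ j with hNd
  have hN1 : 1 ≤ N := one_le_pow₀ one_le_two
  have hN0 : 0 < N := by linarith
  have hXN : X = N * N ^ (k - 1) := by
    rw [hX, hNd, pow_mul, ← pow_succ']
    congr 1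
    omega
  set Lg : ℝ := Real.log X with hLg
  have hLg' : Lg = j * k * Real.log 2 := by
    rw [hLg, hX, Real.log_pow]
    push_cast
    ring
  have hl2 : Real.log 2 ≤ 1 := by
    have := Real.log_two_lt_d9
    linarith
  have hl2' : 1 / 2 ≤ Real.log 2 := by
    have := Real.log_two_gt_d9
    linarith
  have hLgu : Lg ≤ k * j := by
    rw [hLg']
    have h0 : 0 ≤ (j : ℝ) * k := by positivity
    calc (j : ℝ) * k * Real.log 2 ≤ (j : ℝ) * k * 1 := mul_le_mul_of_nonneg_left hl2 h0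
      _ = k * j := by ring
  have hLgl : (j : ℝ) / 2 ≤ Lg := by
    rw [hLg']
    have h1 : (j : ℝ) ≤ j * k := le_mul_of_one_le_right (by linarith) hkR
    calc (j : ℝ) / 2 = j * (1 / 2) := by ring
      _ ≤ (j * k) * Real.log 2 := mul_le_mul h1 hl2' (by norm_num) (by positivity)
  have hLg0 : 0 < Lg := by linarith
  have hγ'0 : 0 < γ' := by linarith
  set Y : ℝ := X ^ γ' with hY
  have hYe : Y = (2 : ℝ) ^ ((γ' * k) * j) := xpow k j γ'
  have hY16 : 16 ≤ Y := by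
    rw [hYe]
    simpa using hD
  have hYX : Y ≤ X := by
    rw [hY]
    calc X ^ γ' ≤ X ^ (1 : ℝ) := Real.rpow_le_rpow_of_exponent_le hX1 hγ1.le
      _ = X := Real.rpow_one X
  set H : ℕ := ⌈Y⌉₊ with hH
  have hHY : Y ≤ H := Nat.le_ceil Y
  have hHY1 : (H : ℝ) < Y + 1 := Nat.ceil_lt_add_one (by linarith)
  have hHX : H ≤ 2 ^ (j * k) := by
    rw [hH, Nat.ceil_le, hXn]
    exact hYX
  have hH16 : 16 ≤ H := by
    have : (16 : ℝ) ≤ H := by linarith
    exact_mod_cast this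
  set h : ℕ := H / 8 with hh
  have h16 : H ≤ 16 * h := by omega
  have h8 : 8 * h ≤ H := by omega
  have hpos : 1 ≤ h := by omega
  have hposR : (1 : ℝ) ≤ h := by exact_mod_cast hpos
  have h16R : (H : ℝ) ≤ 16 * h := by exact_mod_cast h16
  have h8R : 8 * (h : ℝ) ≤ H := by exact_mod_cast h8
  have hLT : Lg ^ T ≤ (k : ℝ) ^ T * (j : ℝ) ^ T := by
    rw [← mul_pow]
    exact pow_le_pow_left₀ hLg0.le hLgu T
  have E1 : X ^ γ * Lg ^ T ≤ h := by
    have h1 : X ^ γ * (16 * Lg ^ T) ≤ Y := by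
      calc X ^ γ * (16 * Lg ^ T) ≤ X ^ γ * (2 : ℝ) ^ ((γ' - γ) * k * j) := by
            refine mul_le_mul_of_nonneg_left ?_ (Real.rpow_nonneg hX0.le _)
            refine le_trans (le_of_eq ?_) (le_trans (mul_le_mul_of_nonneg_left hLT
              (by norm_num : (0 : ℝ) ≤ 16)) (le_trans (le_of_eq ?_) hA))
            · rfl
            · ring
        _ = Y := by
            rw [hYe, hX, xpow, ← Real.rpow_add two_pos]
            congr 1
            ring
    have h2 : X ^ γ * (16 * Lg ^ T) = 16 * (X ^ γ * Lg ^ T) := by ring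
    rw [h2] at h1
    linarith
  have E2 : (h : ℝ) * Lg ^ T ≤ X := by
    have h1 : (h : ℝ) ≤ Y := by linarith
    calc (h : ℝ) * Lg ^ T ≤ Y * (2 : ℝ) ^ ((1 - γ') * k * j) :=
          mul_le_mul h1 (hLT.trans hB) (by positivity) (by linarith)
      _ = X := by
          rw [hYe, ← Real.rpow_add two_pos, hX, ← Real.rpow_natCast]
          congr 1
          push_cast
          ring
  have E4 : N ^ (k - 1) ≤ h := by
    have h1 : N ^ (k - 1) * 16 ≤ Y := by
      have e1 : N ^ (k - 1) = (2 : ℝ) ^ (((k : ℝ) - 1) * j) := by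
        rw [hNd, ← pow_mul, ← Real.rpow_natCast]
        congr 1
        rw [Nat.cast_mul, Nat.cast_sub hk]
        push_cast
        ring
      have h2 : (16 : ℝ) ≤ (2 : ℝ) ^ ((γ' * k - ((k : ℝ) - 1)) * j) := by simpa using hCC
      calc N ^ (k - 1) * 16 ≤ (2 : ℝ) ^ (((k : ℝ) - 1) * j) *
            (2 : ℝ) ^ ((γ' * k - ((k : ℝ) - 1)) * j) := by
            rw [e1]
            exact mul_le_mul_of_nonneg_left h2 (Real.rpow_nonneg two_pos.le _)
        _ = Y := by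
            rw [hYe, ← Real.rpow_add two_pos]
            congr 1
            ring
    linarith
  -- the points
  set cc : ℕ → ℕ := fun n => M - fl lam (f n) with hcc
  set q : ℝ := c * h / Lg ^ t with hq
  have hq0 : 0 ≤ q := by positivity
  set Sb : Finset ℕ := S.filter (fun n => ¬ (q ≤
    ((V ∩ {m : ℕ | cc n < m ∧ m ≤ cc n + 2 * h}).ncard : ℝ))) with hSb
  have hfin : ∀ u v : ℕ, (V ∩ {m : ℕ | u < m ∧ m ≤ v}).Finite := fun u v =>
    (Set.finite_Icc u v).subset fun m hm => ⟨hm.2.1.le, hm.2.2⟩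
  have hccX : ∀ n ∈ S, 1 ≤ cc n ∧ 4 * cc n ≤ 3 * 2 ^ (j * k) := by
    intro n hn
    obtain ⟨-, -, h1, h2⟩ := hSm n hn
    refine ⟨?_, h2⟩
    have h3 : 1 ≤ 2 ^ (j * k) := Nat.one_le_two_pow
    simp only [hcc]
    omega
  have hin : ∀ n ∈ Sb, ∀ e, cc n < e → e ≤ cc n + h → e ∈ Ex := by
    intro n hn e he1 he2
    rw [hSb, mem_filter] at hn
    obtain ⟨hnS, hbad⟩ := hn
    by_contra hne
    apply hbad
    obtain ⟨h1, h2⟩ := hccX n hnS
    have heX : e ∈ Icc 1 (2 ^ (j * k)) := by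
      rw [mem_Icc]
      constructor <;> omega
    refine (hEx e heX hne h E1 E2).trans ?_
    have : (V ∩ {m : ℕ | e < m ∧ m ≤ e + h}).ncard ≤
        (V ∩ {m : ℕ | cc n < m ∧ m ≤ cc n + 2 * h}).ncard := by
      refine Set.ncard_le_ncard ?_ (hfin _ _)
      rintro m ⟨hmV, hm1, hm2⟩
      exact ⟨hmV, by omega, by omega⟩
    exact_mod_cast this
  set L : ℝ := C * (h + 1) / (lam * N ^ (k - 1)) with hL
  have hL0 : 0 ≤ L := by positivity
  have hm : ∀ e ∈ Ex, ((Sb.filter (fun n => cc n < e ∧ e ≤ cc n + h)).card : ℝ) ≤ 1 + L := by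
    intro e _
    refine mult_card _ L hL0 ?_
    intro m hm n hn hmn
    rw [mem_filter, hSb, mem_filter] at hm hn
    obtain ⟨⟨hmS, -⟩, hm1, hm2⟩ := hm
    obtain ⟨⟨hnS, -⟩, hn1, hn2⟩ := hn
    obtain ⟨hmN, -, -, -⟩ := hSm m hmS
    have g1 := (hccX m hmS).1
    have g2 := (hccX n hnS).1
    have hsp' := hsp m n (hN.trans hmN.le) hmn
    have hpow : N ^ (k - 1) ≤ (m : ℝ) ^ (k - 1) := by
      refine pow_le_pow_left₀ hN0.le ?_ _
      have : (2 ^ j : ℕ) ≤ m := hmN.le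
      have h2 : ((2 ^ j : ℕ) : ℝ) ≤ m := by exact_mod_cast this
      push_cast at h2
      exact h2
    have hnm : (0 : ℝ) < (n : ℝ) - m := by
      have : (m : ℝ) < n := by exact_mod_cast hmn
      linarith
    have f1 : lam * (f n : ℝ) < fl lam (f n) + 1 := Nat.lt_floor_add_one _
    have f2 : (fl lam (f m) : ℝ) ≤ lam * (f m : ℝ) := Nat.floor_le (by positivity)
    have f3 : fl lam (f n) + 1 ≤ fl lam (f m) + h + 1 := by
      simp only [hcc] at g1 g2 hm1 hm2 hn1 hn2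
      omega
    have f3R : (fl lam (f n) : ℝ) + 1 ≤ fl lam (f m) + h + 1 := by exact_mod_cast f3
    have f4 : lam * ((f n : ℝ) - f m) ≤ h + 1 := by
      rw [mul_sub]
      linarith
    have f5 : N ^ (k - 1) * ((n : ℝ) - m) ≤ C * ((f n : ℝ) - f m) :=
      (mul_le_mul_of_nonneg_right hpow hnm.le).trans hsp'
    rw [hL, le_div_iff₀ (by positivity)]
    calc ((n : ℝ) - m) * (lam * N ^ (k - 1)) = lam * (N ^ (k - 1) * ((n : ℝ) - m)) := by ring
      _ ≤ lam * (C * ((f n : ℝ) - f m)) := mul_le_mul_of_nonneg_left f5 hlam.le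
      _ = C * (lam * ((f n : ℝ) - f m)) := by ring
      _ ≤ C * (h + 1) := mul_le_mul_of_nonneg_left f4 hC.le
  have hdc := double_count Sb cc Ex h (1 + L) hin hm
  -- the number of bad points
  have hpk : 0 < N ^ (k - 1) := by positivity
  have hbadc : (Sb.card : ℝ) ≤ C' * N / Lg ^ U := by
    have g1 : (1 + L) * N ^ (k - 1) ≤ h * C' := by
      have e1 : L * N ^ (k - 1) = C * (h + 1) / lam := by
        rw [hL]
        field_simp
      have e2 : C * (h + 1) / lam ≤ h * (2 * C / lam) := by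
        rw [mul_div_assoc', div_le_div_iff_of_pos_right hlam]
        have e3 : C * 1 ≤ C * h := mul_le_mul_of_nonneg_left hposR hC.le
        calc C * ((h : ℝ) + 1) = C * h + C * 1 := by ring
          _ ≤ C * h + C * h := by linarith
          _ = h * (2 * C) := by ring
      rw [hC']
      calc (1 + L) * N ^ (k - 1) = N ^ (k - 1) + L * N ^ (k - 1) := by ring
        _ ≤ h + h * (2 * C / lam) := by
            rw [e1]
            linarith
        _ = h * (1 + 2 * C / lam) := by ring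
    have g2 : (h : ℝ) * (Sb.card * N ^ (k - 1)) ≤ h * (Ex.card * C') := by
      calc (h : ℝ) * (Sb.card * N ^ (k - 1)) = (h * Sb.card) * N ^ (k - 1) := by ring
        _ ≤ (Ex.card * (1 + L)) * N ^ (k - 1) := mul_le_mul_of_nonneg_right hdc hpk.le
        _ = Ex.card * ((1 + L) * N ^ (k - 1)) := by ring
        _ ≤ Ex.card * (h * C') := mul_le_mul_of_nonneg_left g1 (Nat.cast_nonneg _)
        _ = h * (Ex.card * C') := by ring
    have g3 : (Sb.card : ℝ) * N ^ (k - 1) ≤ Ex.card * C' :=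
      le_of_mul_le_mul_left g2 (by linarith)
    have g4 : (Ex.card : ℝ) * C' ≤ (X / Lg ^ U) * C' := mul_le_mul_of_nonneg_right hExc hC'0.le
    have g5 : (X / Lg ^ U) * C' = (C' * N / Lg ^ U) * N ^ (k - 1) := by
      rw [hXN]
      ring
    exact le_of_mul_le_mul_right (g3.trans (g4.trans_eq g5)) hpk
  set P : ℝ := (j : ℝ) + 1 with hP
  have hP1 : 1 ≤ P := by linarith
  have hP0 : 0 < P := by linarith
  have hPt' : 0 < P ^ t' := Real.rpow_pos_of_pos hP0 _
  have hE6 : C' * N / Lg ^ U ≤ c₃ * N / P ^ t' / 2 := by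
    rw [div_div, div_le_div_iff₀ (by positivity) (by positivity)]
    have hU1 : 1 ≤ U := by
      have : (1 : ℝ) ≤ U := by linarith
      exact_mod_cast this
    have g1 : P ^ t' ≤ (2 * (j : ℝ)) ^ (U - 1) := by
      calc P ^ t' ≤ P ^ ((U - 1 : ℕ) : ℝ) := by
            refine Real.rpow_le_rpow_of_exponent_le hP1 ?_
            rw [Nat.cast_sub hU1]
            push_cast
            linarith
        _ = P ^ (U - 1) := Real.rpow_natCast _ _
        _ ≤ (2 * (j : ℝ)) ^ (U - 1) := pow_le_pow_left₀ hP0.le (by rw [hP]; linarith) _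
    have g2 : ((j : ℝ) / 2) ^ U ≤ Lg ^ U := pow_le_pow_left₀ (by positivity) hLgl U
    rw [div_le_iff₀ hc₃] at hE
    have g3 : C' * (2 * (j : ℝ)) ^ (U - 1) * 2 ≤ c₃ * ((j : ℝ) / 2) ^ U := by
      obtain ⟨u, rfl⟩ : ∃ u, U = u + 1 := ⟨U - 1, by omega⟩
      rw [Nat.add_sub_cancel, mul_pow, div_pow, mul_div_assoc', le_div_iff₀ (by positivity)]
      have e1 : C' * (2 ^ u * (j : ℝ) ^ u) * 2 * 2 ^ (u + 1) =
          (2 * C' * 2 ^ (2 * u + 1)) * (j : ℝ) ^ u := by ring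
      have e2 : (2 : ℝ) ^ (2 * u + 1) ≤ 2 ^ (2 * (u + 1)) :=
        pow_le_pow_right₀ one_le_two (by omega)
      rw [e1]
      calc (2 * C' * 2 ^ (2 * u + 1)) * (j : ℝ) ^ u ≤ (2 * C' * 2 ^ (2 * (u + 1))) * (j : ℝ) ^ u := by
            gcongr
        _ ≤ ((j : ℝ) * c₃) * (j : ℝ) ^ u := by gcongr
        _ = c₃ * (j : ℝ) ^ (u + 1) := by ring
    calc C' * N * (P ^ t' * 2) ≤ C' * N * ((2 * (j : ℝ)) ^ (U - 1) * 2) := by gcongr
      _ = N * (C' * (2 * (j : ℝ)) ^ (U - 1) * 2) := by ring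
      _ ≤ N * (c₃ * ((j : ℝ) / 2) ^ U) := by gcongr
      _ ≤ N * (c₃ * Lg ^ U) := by gcongr
      _ = c₃ * N * Lg ^ U := by ring
  have hgood : c₃ * N / P ^ t' / 2 ≤ ((S \ Sb).card : ℝ) := by
    have h1 : ((S \ Sb).card : ℝ) = S.card - Sb.card := by
      rw [card_sdiff_of_subset (filter_subset _ _), Nat.cast_sub (card_le_card (filter_subset _ _))]
    rw [h1]
    linarith
  -- good points
  have hpt : ∀ n ∈ S \ Sb, q ≤ (((VV V k j).filter fun a =>
      2 * |((a + fl lam (f n) : ℕ) : ℤ) - M| ≤ (H : ℤ)).card : ℝ) := by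
    intro n hn
    rw [Finset.mem_sdiff, hSb, Finset.mem_filter, not_and, not_not] at hn
    obtain ⟨hnS, hn2⟩ := hn
    refine (hn2 hnS).trans ?_
    obtain ⟨g1, g2⟩ := hccX n hnS
    have hsub : (V ∩ {m : ℕ | cc n < m ∧ m ≤ cc n + 2 * h}) ⊆
        (((VV V k j).filter fun a => 2 * |((a + fl lam (f n) : ℕ) : ℤ) - M| ≤ (H : ℤ) :
          Finset ℕ) : Set ℕ) := by
      rintro m ⟨hmV, hm1, hm2⟩
      rw [mem_coe, mem_filter]
      refine ⟨?_, ?_⟩
      · unfold VV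
        rw [mem_filter, mem_range]
        refine ⟨?_, hmV⟩
        omega
      · simp only [hcc] at g1 hm1 hm2
        rw [abs_of_nonneg (by omega)]
        omega
    have := Set.ncard_le_ncard hsub (finite_toSet _)
    rw [Set.ncard_coe_finset] at this
    exact_mod_cast this
  calc (H : ℝ) * N / P ^ (⌈t + t'⌉₊ + 1) ≤ (c₃ * N / P ^ t' / 2) * q := by
        rw [hq, div_div, div_mul_div_comm, div_le_div_iff₀ (by positivity) (by positivity)]
        rw [div_le_iff₀ (by positivity)] at hF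
        have g1 : Lg ^ t ≤ (k : ℝ) ^ t * P ^ t := by
          rw [← Real.mul_rpow hk0.le hP0.le]
          refine Real.rpow_le_rpow hLg0.le ?_ ht
          rw [hP]
          calc Lg ≤ k * j := hLgu
            _ ≤ k * (j + 1) := mul_le_mul_of_nonneg_left (by linarith) hk0.le
        have g2 : P ^ t' * P ^ t ≤ P ^ ⌈t + t'⌉₊ := by
          rw [← Real.rpow_add hP0, ← Real.rpow_natCast]
          refine Real.rpow_le_rpow_of_exponent_le hP1 ?_
          have := Nat.le_ceil (t + t')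
          linarith
        have g3 : 32 * (k : ℝ) ^ t ≤ P * (c₃ * c) := by
          have h0 : 0 < c₃ * c := by positivity
          rw [hP, add_mul, one_mul]
          linarith
        calc (H : ℝ) * N * (P ^ t' * 2 * Lg ^ t)
            ≤ (16 * h) * N * (P ^ t' * 2 * ((k : ℝ) ^ t * P ^ t)) := by gcongr
          _ = h * N * (P ^ t' * P ^ t) * (32 * (k : ℝ) ^ t) := by ring
          _ ≤ h * N * P ^ ⌈t + t'⌉₊ * (P * (c₃ * c)) := by gcongr
          _ = c₃ * N * (c * h) * P ^ (⌈t + t'⌉₊ + 1) := by ring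
    _ ≤ ((S \ Sb).card : ℝ) * q := mul_le_mul_of_nonneg_right hgood hq0
    _ = ∑ _n ∈ S \ Sb, q := by rw [sum_const, nsmul_eq_mul]
    _ ≤ ∑ n ∈ S \ Sb, (((VV V k j).filter fun a =>
          2 * |((a + fl lam (f n) : ℕ) : ℤ) - M| ≤ (H : ℤ)).card : ℝ) := sum_le_sum hpt
    _ ≤ ∑ n ∈ S, (((VV V k j).filter fun a =>
          2 * |((a + fl lam (f n) : ℕ) : ℤ) - M| ≤ (H : ℤ)).card : ℝ) :=
        sum_le_sum_of_subset_of_nonneg sdiff_subset fun _ _ _ => Nat.cast_nonneg _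

end

end Pool.Agent.Run7.h803.MW
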